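import Mathlib
import Pool.Agent.Helper90.FA.SFASY
import Pool.Agent.Helper44.FA.Round
import Pool.Agent.Helper11.Kash.Loba

/-!
# The asymptotics of the weights of a vertex
-/

namespace Pool.Agent.Helper9.FA

open Finset Filter Topology
open Pool.Agent.Helper9.Kashaev Pool.Agent.Helper9.TG
open Pool.Agent.Helper9 (TB.lam TB.bb TB.sf TB.mu)

private lemma sf_eq {N n : ℕ} : TB.sf N n = ∏ j ∈ range n, sn N ((j : ℤ) + 1) := by
  unfold TB.sf
  refine prod_congr rfl fun j _ => ?_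
  unfold TB.sb sn
  congr 2
  push_cast
  ring

private lemma sfpos {N n : ℕ} (h : n < N) : 0 < TB.sf N n :=
  TB.sf_pos (by exact_mod_cast h)

private lemma log_sf {N n : ℕ} (h : n < N) : Real.log (TB.sf N n) = logS N n := by
  rw [sf_eq, Real.log_prod]
  · rfl
  · intro j hj
    rw [mem_range] at hj
    exact (sn_pos (by omega) (by omega)).ne'

private lemma sf_mul {N l : ℕ} (hN : 2 ≤ N) (hl : l < N) :
    TB.sf N l * TB.sf N (N - 1 - l) = N := by
  have h1 := sfpos hl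
  have h2 := sfpos (N := N) (n := N - 1 - l) (by omega)
  have h3 := logS_refl (N := N) l hl
  rw [logS_last hN, ← log_sf hl, ← log_sf (by omega : N - 1 - l < N)] at h3
  have h4 : Real.log (TB.sf N l * TB.sf N (N - 1 - l)) = Real.log N := by
    rw [Real.log_mul h1.ne' h2.ne']; linarith
  have h5 : (0 : ℝ) < N := by exact_mod_cast (by omega : 0 < N)
  exact Real.log_injOn_pos (Set.mem_Ioi.2 (mul_pos h1 h2)) (Set.mem_Ioi.2 h5) h4

private lemma sf_nonneg (N n : ℕ) : 0 ≤ TB.sf N n := by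
  rcases lt_or_ge n N with h | h
  · exact (sfpos h).le
  · rcases Nat.eq_zero_or_pos N with rfl | hN
    · unfold TB.sf TB.sb
      apply prod_nonneg
      intro j _
      simp
    · have : TB.sf N n = 0 := by
        unfold TB.sf
        apply prod_eq_zero (i := N - 1) (mem_range.2 (by omega))
        rw [show N - 1 + 1 = N by omega, div_self (by exact_mod_cast hN.ne')]
        unfold TB.sb
        simp
      rw [this]

private lemma bn_nonneg (N a b : ℕ) : 0 ≤ bn N a b := by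
  unfold bn
  split_ifs
  · exact div_nonneg (sf_nonneg N a) (mul_nonneg (sf_nonneg N b) (sf_nonneg N (a - b)))
  · exact le_refl 0

private lemma bn_pos {N a b : ℕ} (h : b ≤ a) (ha : a < N) : 0 < bn N a b := by
  unfold bn
  rw [if_pos h]
  exact div_pos (sfpos ha) (mul_pos (sfpos (by omega)) (sfpos (by omega)))

private lemma log_bn {N a b : ℕ} (h : b ≤ a) (ha : a < N) : Real.log (bn N a b) =
    Real.log (TB.sf N a) - Real.log (TB.sf N b) - Real.log (TB.sf N (a - b)) := by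
  unfold bn
  rw [if_pos h]
  have h1 := (sfpos ha).ne'
  have h2 := (sfpos (N := N) (n := b) (by omega)).ne'
  have h3 := (sfpos (N := N) (n := a - b) (by omega)).ne'
  rw [Real.log_div h1 (mul_ne_zero h2 h3), Real.log_mul h2 h3]
  ring

private lemma bn_zero {N a b : ℕ} (h : a < b) : bn N a b = 0 := by
  unfold bn; rw [if_neg (by omega)]

private lemma G0_nonneg (N n : ℕ) : 0 ≤ G0 N n :=
  sum_nonneg fun _ _ => mul_nonneg (bn_nonneg _ _ _) (bn_nonneg _ _ _)

theorem kp0_nonneg (N n uL uR uB uT : ℕ) : 0 ≤ kp0 N n uL uR uB uT := by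
  unfold kp0 Wt
  have h1 := G0_nonneg N n
  have h2 := bn_nonneg N (N - 1 - n) uL
  have h3 := bn_nonneg N (N - 1 - n) uR
  have h4 := bn_nonneg N (N - 1 - (N - 1 - n)) uB
  have h5 := bn_nonneg N (N - 1 - (N - 1 - n)) uT
  positivity

private lemma G0_zero {N n : ℕ} (h : N - 1 < 2 * n) : G0 N n = 0 := by
  unfold G0
  apply sum_eq_zero
  intro k hk
  rw [mem_range] at hk
  rcases lt_or_ge k n with h1 | h1
  · rw [bn_zero h1, zero_mul]
  · rw [bn_zero (a := N - 1 - k) (by omega), mul_zero]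

theorem kp0_zero {N : ℕ} (hN : 2 ≤ N) {n uL uR uB uT : ℕ} (h : ¬ (uB ≤ n ∧ uT ≤ n ∧
    uL + n ≤ N - 1 ∧ uR + n ≤ N - 1 ∧ 2 * n ≤ N - 1)) : kp0 N n uL uR uB uT = 0 := by
  unfold kp0 Wt
  rcases lt_or_ge (N - 1) (2 * n) with h1 | h1
  · rw [G0_zero h1, zero_mul]
  have e : N - 1 - (N - 1 - n) = n := by omega
  rw [e]
  rcases lt_or_ge n uB with h2 | h2
  · rw [bn_zero (b := uB) h2]; ring
  rcases lt_or_ge n uT with h3 | h3
  · rw [bn_zero (b := uT) h3]; ring
  rcases lt_or_ge (N - 1 - n) uL with h4 | h4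
  · rw [bn_zero (b := uL) h4]; ring
  rcases lt_or_ge (N - 1 - n) uR with h5 | h5
  · rw [bn_zero (b := uR) h5]; ring
  exfalso
  apply h
  omega

theorem GG_le (N : ℕ) (a : ℤ) (n : ℕ) : ‖GG N a n‖ ≤ G0 N n := by
  unfold GG G0
  refine (norm_sum_le _ _).trans (sum_le_sum fun k _ => ?_)
  rw [norm_mul, Complex.norm_real, Real.norm_of_nonneg (mul_nonneg (bn_nonneg _ _ _)
    (bn_nonneg _ _ _))]
  have h : ‖thx N a k‖ = 1 := by
    unfold thx
    have e : (Real.pi : ℂ) * Complex.I * (a * ((k : ℂ) - (N - 1) / 2) ^ 2 / N) =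
        ((Real.pi * (a * ((k : ℝ) - (N - 1) / 2) ^ 2 / N) : ℝ) : ℂ) * Complex.I := by
      push_cast; ring
    rw [e, Complex.norm_exp_ofReal_mul_I]
  rw [h, one_mul]

private lemma lob_cont : Continuous lobachevsky := by
  have h : lobachevsky = fun x => - HH x := by funext x; exact HH_loba x
  rw [h]
  exact HH_cont.neg

theorem vol_cont : Continuous (fun x : ℝ × ℝ × ℝ × ℝ × ℝ =>
    (⟨x.1, x.2.1, x.2.2.1, x.2.2.2.1, x.2.2.2.2⟩ : Cor ℝ).vol) := by
  have hl := lob_cont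
  unfold Cor.vol tet
  simp only
  fun_prop

/-! ### the sum `G0` -/

private lemma sb_mono {N x y : ℕ} (hxy : x ≤ y) (h : x + y ≤ N) :
    TB.sb ((x : ℝ) / N) ≤ TB.sb ((y : ℝ) / N) := by
  rcases Nat.eq_zero_or_pos N with rfl | hN
  · simp
  have hNR : (0 : ℝ) < N := by exact_mod_cast hN
  have h1 : (x : ℝ) ≤ y := by exact_mod_cast hxy
  have h2 : (x : ℝ) + y ≤ N := by exact_mod_cast h
  have hpi := Real.pi_pos
  unfold TB.sb
  have h3 : Real.sin (Real.pi * (y / N)) - Real.sin (Real.pi * (x / N)) =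
      2 * Real.sin ((Real.pi * (y / N) - Real.pi * (x / N)) / 2) *
        Real.cos ((Real.pi * (y / N) + Real.pi * (x / N)) / 2) := Real.sin_sub_sin _ _
  have h4 : 0 ≤ Real.sin ((Real.pi * (y / N) - Real.pi * (x / N)) / 2) := by
    apply Real.sin_nonneg_of_nonneg_of_le_pi
    · rw [← mul_sub, ← sub_div]
      have : 0 ≤ ((y : ℝ) - x) / N := div_nonneg (by linarith) hNR.le
      positivity
    · rw [← mul_sub, ← sub_div]
      have h5 : ((y : ℝ) - x) / N ≤ 1 := by
        rw [div_le_one hNR]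
        have : (0 : ℝ) ≤ x := Nat.cast_nonneg x
        linarith
      nlinarith
  have h6 : 0 ≤ Real.cos ((Real.pi * (y / N) + Real.pi * (x / N)) / 2) := by
    apply Real.cos_nonneg_of_neg_pi_div_two_le_of_le
    · have : 0 ≤ Real.pi * (y / N) + Real.pi * (x / N) := by positivity
      linarith
    · rw [← mul_add, ← add_div]
      have h5 : ((y : ℝ) + x) / N ≤ 1 := by rw [div_le_one hNR]; linarith
      nlinarith
  have h7 := mul_nonneg h4 h6
  linarith

private noncomputable def Rk (N n k : ℕ) : ℝ := TB.sf N (k + n) / TB.sf N (k - n)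

private lemma Rk_step {N n k : ℕ} (h1 : n ≤ k) (h2 : 2 * (k + 1) ≤ N - 1)
    (h3 : k + 1 + n ≤ N - 1) : Rk N n k ≤ Rk N n (k + 1) := by
  unfold Rk
  have e1 : k + 1 + n = (k + n) + 1 := by omega
  have e2 : k + 1 - n = (k - n) + 1 := by omega
  rw [e1, e2, TB.sf_succ, TB.sf_succ]
  have p1 := sfpos (N := N) (n := k + n) (by omega)
  have p2 := sfpos (N := N) (n := k - n) (by omega)
  have hNR : (0 : ℝ) < N := by exact_mod_cast (by omega : 0 < N)
  have p3 : 0 < TB.sb (((k - n + 1 : ℕ) : ℝ) / N) := by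
    apply TB.sb_pos
    · positivity
    · rw [div_lt_one hNR]; exact_mod_cast (by omega : k - n + 1 < N)
  have p4 : TB.sb (((k - n + 1 : ℕ) : ℝ) / N) ≤ TB.sb (((k + n + 1 : ℕ) : ℝ) / N) :=
    sb_mono (by omega) (by omega)
  rw [div_le_div_iff₀ p2 (mul_pos p2 p3)]
  have : 0 ≤ TB.sf N (k + n) * TB.sf N (k - n) := by positivity
  nlinarith

private lemma Rk_le_half {N n : ℕ} (h2n : 2 * n ≤ N - 1) : ∀ k, n ≤ k → k ≤ (N - 1) / 2 →
    Rk N n k ≤ Rk N n ((N - 1) / 2) := by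
  intro k h1 h2
  obtain ⟨j, hj⟩ : ∃ j, k + j = (N - 1) / 2 := ⟨(N - 1) / 2 - k, by omega⟩
  induction j generalizing k with
  | zero => rw [← hj]; exact le_refl _
  | succ j ih =>
    refine (Rk_step h1 (by omega) (by omega)).trans (ih (k + 1) (by omega) (by omega) (by omega))

private lemma Rk_refl {N n k : ℕ} (hN : 2 ≤ N) (h1 : n ≤ k) (h2 : k + n ≤ N - 1) :
    Rk N n k = Rk N n (N - 1 - k) := by
  unfold Rk
  have p1 := sfpos (N := N) (n := k - n) (by omega)
  have p2 := sfpos (N := N) (n := N - 1 - k - n) (by omega)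
  have e1 := sf_mul hN (l := k + n) (by omega)
  have e2 := sf_mul hN (l := k - n) (by omega)
  rw [show N - 1 - (k + n) = N - 1 - k - n by omega] at e1
  rw [show N - 1 - (k - n) = N - 1 - k + n by omega] at e2
  rw [div_eq_div_iff p1.ne' p2.ne', e1, mul_comm, e2]

private lemma Rk_le {N n k : ℕ} (hN : 2 ≤ N) (h2n : 2 * n ≤ N - 1) (h1 : n ≤ k)
    (h2 : k + n ≤ N - 1) : Rk N n k ≤ Rk N n ((N - 1) / 2) := by
  rcases le_or_gt k ((N - 1) / 2) with h | h
  · exact Rk_le_half h2n k h1 h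
  · rw [Rk_refl hN h1 h2]
    exact Rk_le_half h2n _ (by omega) (by omega)

private lemma term_eq {N n k : ℕ} (hN : 2 ≤ N) (h1 : n ≤ k) (h2 : k + n ≤ N - 1) :
    bn N k n * bn N (N - 1 - k) n = Rk N n k / TB.sf N n ^ 2 := by
  unfold bn Rk
  rw [if_pos h1, if_pos (by omega)]
  have p0 := sfpos (N := N) (n := n) (by omega)
  have p1 := sfpos (N := N) (n := k - n) (by omega)
  have p2 := sfpos (N := N) (n := N - 1 - k - n) (by omega)
  have e1 := sf_mul hN (l := k + n) (by omega)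
  have e2 := sf_mul hN (l := k) (by omega)
  rw [show N - 1 - (k + n) = N - 1 - k - n by omega] at e1
  rw [div_mul_div_comm, e2, div_div, div_eq_div_iff (by positivity) (by positivity)]
  linear_combination (-(TB.sf N (k - n) * TB.sf N n ^ 2)) * e1

private lemma G0_bounds {N n : ℕ} (hN : 2 ≤ N) (h2n : 2 * n ≤ N - 1) :
    Rk N n ((N - 1) / 2) / TB.sf N n ^ 2 ≤ G0 N n ∧
      G0 N n ≤ N * (Rk N n ((N - 1) / 2) / TB.sf N n ^ 2) := by
  have p0 := sfpos (N := N) (n := n) (by omega)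
  constructor
  · rw [← term_eq hN (by omega) (by omega)]
    unfold G0
    exact single_le_sum (f := fun k => bn N k n * bn N (N - 1 - k) n)
      (fun k _ => mul_nonneg (bn_nonneg _ _ _) (bn_nonneg _ _ _)) (mem_range.2 (by omega))
  · unfold G0
    have h : ∀ k ∈ range N, bn N k n * bn N (N - 1 - k) n ≤
        Rk N n ((N - 1) / 2) / TB.sf N n ^ 2 := by
      intro k hk
      rw [mem_range] at hk
      have hpos : 0 ≤ Rk N n ((N - 1) / 2) / TB.sf N n ^ 2 := by
        unfold Rk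
        have p1 := sfpos (N := N) (n := (N - 1) / 2 + n) (by omega)
        have p2 := sfpos (N := N) (n := (N - 1) / 2 - n) (by omega)
        positivity
      rcases lt_or_ge k n with h1 | h1
      · rw [bn_zero h1, zero_mul]; exact hpos
      rcases lt_or_ge (N - 1) (k + n) with h3 | h3
      · rw [bn_zero (a := N - 1 - k) (by omega), mul_zero]; exact hpos
      rw [term_eq hN h1 h3]
      have := Rk_le hN h2n h1 h3
      gcongr
    refine (sum_le_card_nsmul _ _ _ h).trans ?_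
    rw [card_range, nsmul_eq_mul]

/-! ### half steps of the Lobachevsky function -/

private lemma log_sb_bound {N j : ℕ} (hN : 2 ≤ N) (h0 : 1 ≤ j) (h1 : j < N) :
    |Real.log (TB.sb ((j : ℝ) / N))| ≤ Real.log N := by
  have hNR : (2 : ℝ) ≤ N := by exact_mod_cast hN
  have hpi := Real.pi_pos
  have h2 := sn_one_bounds hN
  have e1 : sn N 1 = TB.sb (((1 : ℕ) : ℝ) / N) := by
    unfold sn TB.sb; congr 2; push_cast; ring
  have h3 : TB.sb (((1 : ℕ) : ℝ) / N) ≤ TB.sb ((j : ℝ) / N) := by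
    rcases le_or_gt (1 + j) N with h | h
    · exact sb_mono h0 h
    · omega
  have h4 : 0 < TB.sb (((1 : ℕ) : ℝ) / N) := by
    apply TB.sb_pos
    · positivity
    · rw [div_lt_one (by linarith)]; push_cast; linarith
  have h5 : TB.sb ((j : ℝ) / N) ≤ N := by
    unfold TB.sb
    have := Real.sin_le_one (Real.pi * ((j : ℝ) / N))
    linarith
  rw [e1] at h2
  rw [abs_le] at h2 ⊢
  constructor
  · exact h2.1.trans (Real.log_le_log h4 h3)
  · exact Real.log_le_log (h4.trans_le h3) h5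

private lemma lob_step : ∃ C : ℝ, 0 < C ∧ ∀ N : ℕ, 2 ≤ N → ∀ i : ℕ, i < 2 * (N - 1) →
    (N : ℝ) / Real.pi * |lobachevsky (Real.pi * (i + 1) / (2 * (N - 1))) -
      lobachevsky (Real.pi * i / (2 * (N - 1)))| ≤ C * (1 + Real.log N) := by
  obtain ⟨C, hC, h⟩ := sf_asy
  refine ⟨2 * (1 + 2 * C), by positivity, fun N hN i hi => ?_⟩
  have hpi := Real.pi_pos
  have hNR : (2 : ℝ) ≤ N := by exact_mod_cast hN
  have ha := h (2 * N - 1) (by omega) (i + 1) (by omega)
  have hb := h (2 * N - 1) (by omega) i (by omega)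
  have e0 : ((2 * N - 1 : ℕ) : ℝ) = 2 * N - 1 := by
    rw [Nat.cast_sub (by omega)]; push_cast; ring
  have e1 : ((2 * N - 1 : ℕ) : ℝ) - 1 = 2 * ((N : ℝ) - 1) := by rw [e0]; ring
  rw [e1] at ha hb
  have hsf : Real.log (TB.sf ((2 * N - 1 : ℕ) : ℝ) (i + 1)) =
      Real.log (TB.sf ((2 * N - 1 : ℕ) : ℝ) i) +
        Real.log (TB.sb (((i + 1 : ℕ) : ℝ) / ((2 * N - 1 : ℕ) : ℝ))) := by
    rw [TB.sf_succ, Real.log_mul]
    · exact (sfpos (by omega)).ne'
    · apply (TB.sb_pos _ _).ne'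
      · have : (0 : ℝ) < ((2 * N - 1 : ℕ) : ℝ) := by exact_mod_cast (by omega : 0 < 2 * N - 1)
        positivity
      · rw [div_lt_one (by exact_mod_cast (by omega : 0 < 2 * N - 1))]
        exact_mod_cast (by omega : i + 1 < 2 * N - 1)
  have hsb := log_sb_bound (N := 2 * N - 1) (j := i + 1) (by omega) (by omega) (by omega)
  rw [hsf] at ha
  have hlog : Real.log ((2 * N - 1 : ℕ) : ℝ) ≤ 1 + Real.log N := by
    have h1 : Real.log ((2 * N - 1 : ℕ) : ℝ) ≤ Real.log (2 * N) := by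
      apply Real.log_le_log
      · exact_mod_cast (by omega : 0 < 2 * N - 1)
      · rw [e0]; linarith
    rw [Real.log_mul (by norm_num) (by linarith)] at h1
    have h2 : Real.log 2 ≤ 1 := by
      have := Real.log_le_sub_one_of_pos (show (0 : ℝ) < 2 by norm_num)
      linarith
    linarith
  have hlogN : 0 ≤ Real.log N := Real.log_nonneg (by linarith)
  push_cast at ha hb hsb
  rw [abs_le] at ha hb hsb
  set A := lobachevsky (Real.pi * ((i : ℝ) + 1) / (2 * ((N : ℝ) - 1))) with hA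
  set B := lobachevsky (Real.pi * (i : ℝ) / (2 * ((N : ℝ) - 1))) with hB
  have hk : ((2 * N - 1 : ℕ) : ℝ) / Real.pi * |A - B| ≤ 2 * (1 + 2 * C) * (1 + Real.log N) := by
    have hq : (0 : ℝ) ≤ ((2 * N - 1 : ℕ) : ℝ) / Real.pi := by positivity
    rw [← abs_of_nonneg hq, ← abs_mul, abs_le, mul_sub]
    have h1 := mul_le_mul_of_nonneg_left hlog hC.le
    have h2 := mul_nonneg hC.le hlogN
    constructor <;> nlinarith
  refine le_trans ?_ hk
  have : (N : ℝ) ≤ ((2 * N - 1 : ℕ) : ℝ) := by exact_mod_cast (by omega : N ≤ 2 * N - 1)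
  gcongr

private lemma lob_refl (x : ℝ) : lobachevsky (Real.pi - x) = - lobachevsky x := by
  rw [HH_loba, HH_loba, Pool.Agent.Helper11.Kash.HH_refl]

private lemma lob_half : lobachevsky (Real.pi / 2) = 0 := by
  rw [HH_loba, Pool.Agent.Helper11.Kash.HH_pi_half, neg_zero]

private lemma mid_step : ∃ C : ℝ, 0 < C ∧ ∀ p : ℕ, 1 ≤ p → ∀ n : ℕ, 2 * n ≤ p →
    ((p + 1 : ℕ) : ℝ) / Real.pi * |2 * lobachevsky (Real.pi / 2 - Real.pi * n / p) -
      lobachevsky (Real.pi * ((p - p / 2 - n : ℕ) : ℝ) / p) -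
      lobachevsky (Real.pi * ((p / 2 - n : ℕ) : ℝ) / p)| ≤
      C * (1 + Real.log ((p + 1 : ℕ) : ℝ)) := by
  obtain ⟨C, hC, h⟩ := lob_step
  refine ⟨2 * C, by positivity, fun p hp n hn => ?_⟩
  have hpR : (0 : ℝ) < p := by exact_mod_cast hp
  have hpi := Real.pi_pos
  have hlog : 0 ≤ Real.log ((p + 1 : ℕ) : ℝ) :=
    Real.log_nonneg (by push_cast; linarith)
  rcases Nat.even_or_odd' p with ⟨k, hk | hk⟩
  · have e1 : p / 2 = k := by omega
    have e2 : p - p / 2 - n = k - n := by omega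
    have e3 : ((k - n : ℕ) : ℝ) = k - n := Nat.cast_sub (by omega)
    have e4 : (p : ℝ) = 2 * k := by rw [hk]; push_cast; ring
    have e5 : Real.pi / 2 - Real.pi * n / p = Real.pi * ((k - n : ℕ) : ℝ) / p := by
      rw [e3, e4]
      have : (k : ℝ) ≠ 0 := by
        rintro h0
        rw [e4, h0] at hpR
        simp at hpR
      field_simp
    rw [e2, e1, e5]
    have e6 : 2 * lobachevsky (Real.pi * ((k - n : ℕ) : ℝ) / p) -
      lobachevsky (Real.pi * ((k - n : ℕ) : ℝ) / p) -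
      lobachevsky (Real.pi * ((k - n : ℕ) : ℝ) / p) = 0 := by ring
    rw [e6, abs_zero, mul_zero]
    positivity
  · have e1 : p / 2 = k := by omega
    have e2 : p - p / 2 - n = k - n + 1 := by omega
    have e3 : ((k - n : ℕ) : ℝ) = k - n := Nat.cast_sub (by omega)
    have e4 : (p : ℝ) = 2 * k + 1 := by rw [hk]; push_cast; ring
    have h1 := h (p + 1) (by omega) (2 * (k - n)) (by omega)
    have h2 := h (p + 1) (by omega) (2 * (k - n) + 1) (by omega)
    have e5 : ((p + 1 : ℕ) : ℝ) - 1 = p := by push_cast; ring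
    rw [e5] at h1 h2
    have f1 : Real.pi * (((2 * (k - n) + 1 : ℕ) : ℝ) + 1) / (2 * p) =
        Real.pi * ((k - n + 1 : ℕ) : ℝ) / p := by
      push_cast [e3]; field_simp; ring
    have f2 : Real.pi * ((2 * (k - n) + 1 : ℕ) : ℝ) / (2 * p) =
        Real.pi / 2 - Real.pi * n / p := by
      push_cast [e3]; rw [e4]; field_simp; ring
    have f3 : Real.pi * (((2 * (k - n) : ℕ) : ℝ) + 1) / (2 * p) =
        Real.pi / 2 - Real.pi * n / p := by
      push_cast [e3]; rw [e4]; field_simp; ring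
    have f4 : Real.pi * ((2 * (k - n) : ℕ) : ℝ) / (2 * p) =
        Real.pi * ((k - n : ℕ) : ℝ) / p := by
      push_cast [e3]; field_simp
    rw [f1, f2] at h2
    rw [f3, f4] at h1
    rw [e2, e1]
    set X := lobachevsky (Real.pi / 2 - Real.pi * n / p)
    set Y := lobachevsky (Real.pi * ((k - n + 1 : ℕ) : ℝ) / p)
    set Z := lobachevsky (Real.pi * ((k - n : ℕ) : ℝ) / p)
    have h3 : |2 * X - Y - Z| ≤ |Y - X| + |X - Z| := by
      rw [show 2 * X - Y - Z = (X - Z) - (Y - X) by ring]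
      have := abs_sub (X - Z) (Y - X)
      linarith
    have hq : (0 : ℝ) ≤ ((p + 1 : ℕ) : ℝ) / Real.pi := by positivity
    have h4 := mul_le_mul_of_nonneg_left h3 hq
    linarith

private lemma kp0_asy' : ∃ C : ℝ, 0 < C ∧ ∀ p : ℕ, 1 ≤ p → ∀ c : Cor ℕ,
    c.uL + c.uR + c.uB + c.uT = p → c.uB ≤ c.n → c.uT ≤ c.n → c.uL + c.n ≤ p →
    c.uR + c.n ≤ p → 2 * c.n ≤ p → 0 < kp0 (p + 1) c.n c.uL c.uR c.uB c.uT ∧
    |Real.log (kp0 (p + 1) c.n c.uL c.uR c.uB c.uT) -
      ((p + 1 : ℕ) : ℝ) / (2 * Real.pi) * (toR p c).vol| ≤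
      C * (1 + Real.log ((p + 1 : ℕ) : ℝ)) := by
  obtain ⟨C1, hC1, h1⟩ := sf_asy
  obtain ⟨C2, hC2, h2⟩ := mid_step
  refine ⟨16 * C1 + C2 + 1, by positivity, fun p hp c hsum hB hT hL hR hn => ?_⟩
  obtain ⟨n, uL, uR, uB, uT⟩ := c
  simp only at hsum hB hT hL hR hn ⊢
  have hpR : (0 : ℝ) < p := by exact_mod_cast hp
  have hpi := Real.pi_pos
  have hlog : 0 ≤ Real.log ((p + 1 : ℕ) : ℝ) :=
    Real.log_nonneg (by push_cast; linarith)
  have e0 : ((p + 1 : ℕ) : ℝ) - 1 = p := by push_cast; ring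
  have hLs : ∀ j, j ≤ p → |Real.log (TB.sf ((p + 1 : ℕ) : ℝ) j) + ((p + 1 : ℕ) : ℝ) / Real.pi *
      lobachevsky (Real.pi * j / p)| ≤ C1 * (1 + Real.log ((p + 1 : ℕ) : ℝ)) := by
    intro j hj
    have := h1 (p + 1) (by omega) j (by omega)
    rwa [e0] at this
  have hmid := h2 p hp n hn
  have hrefl : ∀ j, j ≤ p → lobachevsky (Real.pi * ((p - j : ℕ) : ℝ) / p) =
      - lobachevsky (Real.pi * j / p) := by
    intro j hj
    rw [← lob_refl]
    congr 1
    rw [Nat.cast_sub hj]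
    field_simp
  obtain ⟨g1, g2⟩ := G0_bounds (N := p + 1) (n := n) (by omega) (by omega)
  have es : p + 1 - 1 = p := by omega
  rw [es] at g1 g2
  have q0 := sfpos (N := p + 1) (n := n) (by omega)
  have q1 := sfpos (N := p + 1) (n := p / 2 + n) (by omega)
  have q2 := sfpos (N := p + 1) (n := p / 2 - n) (by omega)
  have ht0 : 0 < Rk (p + 1) n (p / 2) / TB.sf ((p + 1 : ℕ) : ℝ) n ^ 2 := by
    unfold Rk; positivity
  have hG : 0 < G0 (p + 1) n := ht0.trans_le g1
  have hlt : Real.log (Rk (p + 1) n (p / 2) / TB.sf ((p + 1 : ℕ) : ℝ) n ^ 2) =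
      Real.log (TB.sf ((p + 1 : ℕ) : ℝ) (p / 2 + n)) -
      Real.log (TB.sf ((p + 1 : ℕ) : ℝ) (p / 2 - n)) -
      2 * Real.log (TB.sf ((p + 1 : ℕ) : ℝ) n) := by
    unfold Rk
    rw [Real.log_div (by positivity) (by positivity), Real.log_div q1.ne' q2.ne', Real.log_pow]
    push_cast; ring
  have hg1 := Real.log_le_log ht0 g1
  have hg2 := Real.log_le_log hG g2
  rw [Real.log_mul (by positivity) ht0.ne'] at hg2
  rw [hlt] at hg1 hg2
  have b1 := bn_pos (N := p + 1) (a := p - n) (b := uL) (by omega) (by omega)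
  have b2 := bn_pos (N := p + 1) (a := p - n) (b := uR) (by omega) (by omega)
  have b3 := bn_pos (N := p + 1) (a := n) (b := uB) (by omega) (by omega)
  have b4 := bn_pos (N := p + 1) (a := n) (b := uT) (by omega) (by omega)
  have l1 := log_bn (N := p + 1) (a := p - n) (b := uL) (by omega) (by omega)
  have l2 := log_bn (N := p + 1) (a := p - n) (b := uR) (by omega) (by omega)
  have l3 := log_bn (N := p + 1) (a := n) (b := uB) (by omega) (by omega)
  have l4 := log_bn (N := p + 1) (a := n) (b := uT) (by omega) (by omega)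
  have hkp : kp0 (p + 1) n uL uR uB uT = G0 (p + 1) n * (bn (p + 1) (p - n) uL *
      bn (p + 1) (p - n) uR * bn (p + 1) n uB * bn (p + 1) n uT) := by
    unfold kp0 Wt
    rw [es, show p - (p - n) = n by omega]
  rw [hkp]
  refine ⟨by positivity, ?_⟩
  rw [Real.log_mul hG.ne' (by positivity), Real.log_mul (by positivity) b4.ne',
    Real.log_mul (by positivity) b3.ne', Real.log_mul b1.ne' b2.ne', l1, l2, l3, l4]
  -- the volume
  have hvol : (toR p ⟨n, uL, uR, uB, uT⟩).vol = 2 * (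
      2 * (lobachevsky (Real.pi * n / p) + lobachevsky (Real.pi / 2 - Real.pi * n / p)) +
      (lobachevsky (Real.pi * uL / p) + lobachevsky (Real.pi * ((p - n - uL : ℕ) : ℝ) / p) +
        lobachevsky (Real.pi * n / p)) +
      (lobachevsky (Real.pi * uR / p) + lobachevsky (Real.pi * ((p - n - uR : ℕ) : ℝ) / p) +
        lobachevsky (Real.pi * n / p)) +
      (lobachevsky (Real.pi * uB / p) + lobachevsky (Real.pi * ((n - uB : ℕ) : ℝ) / p) +
        lobachevsky (Real.pi * ((p - n : ℕ) : ℝ) / p)) +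
      (lobachevsky (Real.pi * uT / p) + lobachevsky (Real.pi * ((n - uT : ℕ) : ℝ) / p) +
        lobachevsky (Real.pi * ((p - n : ℕ) : ℝ) / p))) := by
    unfold Cor.vol tet toR
    simp only
    have a1 : Real.pi - Real.pi * n / p - (Real.pi / 2 - Real.pi * n / p) = Real.pi / 2 := by ring
    have a2 : Real.pi - Real.pi * n / p - Real.pi * uL / p =
        Real.pi * ((p - n - uL : ℕ) : ℝ) / p := by
      rw [Nat.cast_sub (by omega), Nat.cast_sub (by omega)]; field_simp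
    have a3 : Real.pi - Real.pi * n / p - Real.pi * uR / p =
        Real.pi * ((p - n - uR : ℕ) : ℝ) / p := by
      rw [Nat.cast_sub (by omega), Nat.cast_sub (by omega)]; field_simp
    have a4 : Real.pi * n / p - Real.pi * uB / p = Real.pi * ((n - uB : ℕ) : ℝ) / p := by
      rw [Nat.cast_sub (by omega)]; ring
    have a5 : Real.pi * n / p - Real.pi * uT / p = Real.pi * ((n - uT : ℕ) : ℝ) / p := by
      rw [Nat.cast_sub (by omega)]; ring
    have a6 : Real.pi - Real.pi * uL / p - Real.pi * ((p - n - uL : ℕ) : ℝ) / p =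
        Real.pi * n / p := by rw [← a2]; ring
    have a7 : Real.pi - Real.pi * uR / p - Real.pi * ((p - n - uR : ℕ) : ℝ) / p =
        Real.pi * n / p := by rw [← a3]; ring
    have a8 : Real.pi - Real.pi * uB / p - Real.pi * ((n - uB : ℕ) : ℝ) / p =
        Real.pi * ((p - n : ℕ) : ℝ) / p := by
      rw [← a4, Nat.cast_sub (by omega)]; field_simp; ring
    have a9 : Real.pi - Real.pi * uT / p - Real.pi * ((n - uT : ℕ) : ℝ) / p =
        Real.pi * ((p - n : ℕ) : ℝ) / p := by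
      rw [← a5, Nat.cast_sub (by omega)]; field_simp; ring
    rw [a1, a2, a3, a4, a5, a6, a7, a8, a9, lob_half]
    ring
  rw [hvol]
  have r1 := hrefl n (by omega)
  have r2 := hrefl (p / 2 + n) (by omega)
  rw [show p - (p / 2 + n) = p - p / 2 - n by omega] at r2
  rw [r1]
  rw [r2] at hmid
  have s1 := hLs (p / 2 + n) (by omega)
  have s2 := hLs (p / 2 - n) (by omega)
  have s3 := hLs n (by omega)
  have s4 := hLs (p - n) (by omega)
  have s5 := hLs uL (by omega)
  have s6 := hLs uR (by omega)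
  have s7 := hLs uB (by omega)
  have s8 := hLs uT (by omega)
  have s9 := hLs (p - n - uL) (by omega)
  have s10 := hLs (p - n - uR) (by omega)
  have s11 := hLs (n - uB) (by omega)
  have s12 := hLs (n - uT) (by omega)
  rw [r1] at s4
  have hq : (0 : ℝ) < ((p + 1 : ℕ) : ℝ) / Real.pi := by positivity
  have hq2 : ((p + 1 : ℕ) : ℝ) / (2 * Real.pi) = ((p + 1 : ℕ) : ℝ) / Real.pi / 2 := by
    field_simp
  rw [hq2]
  rw [← abs_of_pos hq, ← abs_mul] at hmid
  set q := ((p + 1 : ℕ) : ℝ) / Real.pi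
  set E := Real.log ((p + 1 : ℕ) : ℝ)
  rw [abs_le] at hmid s1 s2 s3 s4 s5 s6 s7 s8 s9 s10 s11 s12 ⊢
  obtain ⟨m1, m2⟩ := hmid
  obtain ⟨s1a, s1b⟩ := s1
  obtain ⟨s2a, s2b⟩ := s2
  obtain ⟨s3a, s3b⟩ := s3
  obtain ⟨s4a, s4b⟩ := s4
  obtain ⟨s5a, s5b⟩ := s5
  obtain ⟨s6a, s6b⟩ := s6
  obtain ⟨s7a, s7b⟩ := s7
  obtain ⟨s8a, s8b⟩ := s8
  obtain ⟨s9a, s9b⟩ := s9
  obtain ⟨s10a, s10b⟩ := s10
  obtain ⟨s11a, s11b⟩ := s11
  obtain ⟨s12a, s12b⟩ := s12
  constructor <;> linarith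

theorem kp0_asy : ∃ C : ℝ, 0 < C ∧ ∀ N : ℕ, 2 ≤ N → ∀ c : Cor ℕ,
    c.uL + c.uR + c.uB + c.uT = N - 1 → c.uB ≤ c.n → c.uT ≤ c.n → c.uL + c.n ≤ N - 1 →
    c.uR + c.n ≤ N - 1 → 2 * c.n ≤ N - 1 → 0 < kp0 N c.n c.uL c.uR c.uB c.uT ∧
    |Real.log (kp0 N c.n c.uL c.uR c.uB c.uT) - N / (2 * Real.pi) * (toR (N - 1) c).vol| ≤
      C * (1 + Real.log N) := by
  obtain ⟨C, hC, h⟩ := kp0_asy'
  refine ⟨C, hC, fun N hN c => ?_⟩
  obtain ⟨p, rfl⟩ : ∃ p, N = p + 1 := ⟨N - 1, by omega⟩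
  rw [show p + 1 - 1 = p by omega]
  exact h p (by omega) c

end Pool.Agent.Helper9.FA
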