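import Pool.Agent.Helper8.FA.RULES
import Pool.Agent.Helper90.FA.LOCAL

/-!
# The state sum of a pattern of tangles
-/

namespace Pool.Agent.Helper9.FA

open Finset
open Pool.Agent.Helper9.Kashaev Pool.Agent.Helper9.TG
open Pool.Agent.Helper9 (TB.lam TB.bb TB.sf)

/-- the weights of a tangle with coefficients `w` -/
noncomputable def kerW (N : ℕ) (w : ℕ → ℂ) : Ker ℂ := fun n uL uR uB uT =>
  w (N - 1 - n) * (Wt N (N - 1 - n) uL uR uB uT : ℝ)

section gen

variable {R : Type} [CommSemiring R]

private lemma lft_congr (a b : ℕ) {op : (List ℕ → R) → List ℕ → R}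
    (hop : ∀ (g g' : List ℕ → R) (w : List ℕ),
      (∀ u, u.length + a = w.length + b → g u = g' u) → op g w = op g' w) :
    ∀ (k : ℕ) (g g' : List ℕ → R) (w : List ℕ),
      (∀ u, u.length + a = w.length + b → g u = g' u) → lft op k g w = lft op k g' w := by
  intro k
  induction k with
  | zero => intro g g' w h; exact hop g g' w h
  | succ k ih =>
    intro g g' w h
    rcases w with _ | ⟨x, w⟩
    · rfl
    · simp only [lft]
      apply ih
      intro u hu
      apply h
      simp only [List.length_cons]
      omega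

private lemma lft_smul {op : (List ℕ → R) → List ℕ → R}
    (hop : ∀ (c : R) (g : List ℕ → R) (w : List ℕ), op (fun u => c * g u) w = c * op g w) :
    ∀ (k : ℕ) (c : R) (g : List ℕ → R) (w : List ℕ),
      lft op k (fun u => c * g u) w = c * lft op k g w := by
  intro k
  induction k with
  | zero => intro c g w; exact hop c g w
  | succ k ih =>
    intro c g w
    rcases w with _ | ⟨x, w⟩
    · simp [lft]
    · simp only [lft]
      exact ih c _ w

private lemma cupT_congr (p : ℕ) (g g' : List ℕ → R) (w : List ℕ)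
    (h : ∀ u, u.length + 2 = w.length + 0 → g u = g' u) : cupT p g w = cupT p g' w := by
  rcases w with _ | ⟨a, _ | ⟨e, _ | ⟨b, r⟩⟩⟩
  · rfl
  · rfl
  · rfl
  · simp only [cupT]
    rw [h _ (by simp)]

private lemma capT_congr (p : ℕ) (g g' : List ℕ → R) (w : List ℕ)
    (h : ∀ u, u.length + 0 = w.length + 2 → g u = g' u) : capT p g w = capT p g' w := by
  rcases w with _ | ⟨x, r⟩
  · rfl
  · simp only [capT]
    refine sum_congr rfl fun i _ => ?_
    rw [h _ (by simp)]

private lemma boxT_congr (p : ℕ) (κ : Ker R) (g g' : List ℕ → R) (w : List ℕ)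
    (h : ∀ u, u.length + 0 = w.length + 0 → g u = g' u) : boxT p κ g w = boxT p κ g' w := by
  rcases w with _ | ⟨x, _ | ⟨t, _ | ⟨y, r⟩⟩⟩
  · rfl
  · rfl
  · rfl
  · simp only [boxT]
    split_ifs
    · refine sum_congr rfl fun n _ => sum_congr rfl fun uL _ => sum_congr rfl fun uR _ => ?_
      rw [h _ (by simp)]
    · rfl

private lemma cupT_smul (p : ℕ) (c : R) (g : List ℕ → R) (w : List ℕ) :
    cupT p (fun u => c * g u) w = c * cupT p g w := by
  rcases w with _ | ⟨a, _ | ⟨e, _ | ⟨b, r⟩⟩⟩
  · simp [cupT]
  · simp [cupT]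
  · simp [cupT]
  · simp only [cupT]
    split_ifs <;> simp

private lemma capT_smul (p : ℕ) (c : R) (g : List ℕ → R) (w : List ℕ) :
    capT p (fun u => c * g u) w = c * capT p g w := by
  rcases w with _ | ⟨x, r⟩
  · simp [capT]
  · simp only [capT, mul_sum]

private lemma boxT_smul (p : ℕ) (κ : Ker R) (c : R) (g : List ℕ → R) (w : List ℕ) :
    boxT p κ (fun u => c * g u) w = c * boxT p κ g w := by
  rcases w with _ | ⟨x, _ | ⟨t, _ | ⟨y, r⟩⟩⟩
  · simp [boxT]
  · simp [boxT]
  · simp [boxT]
  · simp only [boxT]
    split_ifs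
    · simp only [mul_sum]
      refine sum_congr rfl fun n _ => sum_congr rfl fun uL _ => sum_congr rfl fun uR _ => ?_
      ring
    · simp

private lemma TrP_mul {α : Type} (p : ℕ) (P : List (Item α)) : ∀ (κs : List (Ker R)) (c : R)
    (g : List ℕ → R) (w : List ℕ), TrP p P κs (fun u => c * g u) w = c * TrP p P κs g w := by
  induction P with
  | nil => intro κs c g w; rfl
  | cons it P ih =>
    intro κs c g w
    rcases it with k | k | ⟨k, a⟩
    · simp only [TrP]
      rw [← ih]
      congr 1
      funext u
      exact lft_smul (cupT_smul p) k c g u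
    · simp only [TrP]
      rw [← ih]
      congr 1
      funext u
      exact lft_smul (capT_smul p) k c g u
    · rcases κs with _ | ⟨κ, κs⟩
      · simp [TrP]
      · simp only [TrP]
        rw [← ih]
        congr 1
        funext u
        exact lft_smul (boxT_smul p κ) k c g u

private lemma TrP_congr {α : Type} (p : ℕ) (P : List (Item α)) : ∀ (n m : ℕ) (_ : wfP n P m)
    (κs : List (Ker R)) (g g' : List ℕ → R) (_ : ∀ u, u.length = n + 1 → g u = g' u)
    (w : List ℕ) (_ : w.length = m + 1), TrP p P κs g w = TrP p P κs g' w := by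
  induction P with
  | nil =>
    intro n m h κs g g' hg w hw
    simp only [wfP] at h
    subst h
    exact hg w hw
  | cons it P ih =>
    intro n m h κs g g' hg w hw
    rcases it with k | k | ⟨k, a⟩
    · simp only [wfP] at h
      simp only [TrP]
      refine ih (n + 2) m h.2 κs _ _ (fun u hu => ?_) w hw
      refine lft_congr 2 0 (cupT_congr p) k g g' u (fun u' hu' => hg u' (by omega))
    · simp only [wfP] at h
      simp only [TrP]
      refine ih (n - 2) m h.2 κs _ _ (fun u hu => ?_) w hw
      refine lft_congr 0 2 (capT_congr p) k g g' u (fun u' hu' => hg u' (by omega))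
    · simp only [wfP] at h
      rcases κs with _ | ⟨κ, κs⟩
      · rfl
      · simp only [TrP]
        refine ih n m h.2 κs _ _ (fun u hu => ?_) w hw
        refine lft_congr 0 0 (boxT_congr p κ) k g g' u (fun u' hu' => hg u' (by omega))

end gen

private lemma DD_sum (N : ℕ) (s : Finset ℕ) (w : ℕ → ℂ) (F : ℕ → List ℕ → ℂ) (d : List ℕ) :
    DD N (fun u => ∑ m ∈ s, w m * F m u) d = ∑ m ∈ s, w m * DD N (F m) d := by
  unfold DD
  induction s using Finset.induction_on with
  | empty =>
    simp only [sum_empty]
    have h := congrFun (Dz_smul N 0 d 0 (fun _ => 0)) (List.replicate (d.length - 1) 0)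
    simpa using h
  | insert a s ha ih =>
    simp only [sum_insert ha]
    rw [Dz_add N 0 d (fun u => w a * F a u) (fun u => ∑ m ∈ s, w m * F m u), Dz_smul]
    simp only [ih]

private lemma lft_sum {N : ℕ} (hN : 2 ≤ N) (w : ℕ → ℂ) : ∀ (k : ℕ) (g : List ℕ → ℂ) (d : List ℕ),
    ∑ m ∈ range N, w m * lft (boxT (N - 1) (fun a uL uR uB uT =>
      if a = N - 1 - m then (Wt N m uL uR uB uT : ℂ) else 0)) k g d =
    lft (boxT (N - 1) (kerW N w)) k g d := by
  intro k
  induction k with
  | zero =>
    intro g d
    simp only [lft]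
    rcases d with _ | ⟨x, _ | ⟨t, _ | ⟨y, r⟩⟩⟩
    · simp [boxT]
    · simp [boxT]
    · simp [boxT]
    · simp only [boxT]
      split_ifs with ht
      · simp only [mul_sum]
        rw [sum_comm]
        refine sum_congr rfl fun n hn => ?_
        rw [sum_comm]
        refine sum_congr rfl fun uL _ => ?_
        rw [sum_comm]
        refine sum_congr rfl fun uR _ => ?_
        rw [mem_range] at hn
        simp only [kerW]
        rw [sum_eq_single (N - 1 - n)]
        · rw [if_pos (by omega)]; ring
        · intro m hm hne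
          rw [mem_range] at hm
          rw [if_neg (by omega)]; ring
        · intro h
          exact absurd (mem_range.2 (by omega)) h
      · simp
  | succ k ih =>
    intro g d
    rcases d with _ | ⟨x, d⟩
    · simp [lft]
    · simp only [lft]
      exact ih _ d

/-- the number of minima minus the number of maxima -/
private def exc {α : Type} : List (Item α) → ℤ
  | [] => 0
  | .cup _ :: P => 1 + exc P
  | .cap _ :: P => -1 + exc P
  | .box _ _ :: P => exc P

private lemma exc_wf {α : Type} (P : List (Item α)) : ∀ (n m : ℕ), wfP n P m →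
    (m : ℤ) = n + 2 * exc P := by
  induction P with
  | nil => intro n m h; simp only [wfP] at h; subst h; simp [exc]
  | cons it P ih =>
    intro n m h
    rcases it with k | k | ⟨k, a⟩
    · simp only [wfP] at h
      have := ih _ _ h.2
      simp only [exc]; push_cast at this; linarith
    · simp only [wfP] at h
      have := ih _ _ h.2
      have h2 : ((n - 2 : ℕ) : ℤ) = n - 2 := by omega
      simp only [exc]; rw [h2] at this; linarith
    · simp only [wfP] at h
      have := ih _ _ h.2
      simp only [exc]; linarith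

private lemma wf_link {α : Type} (D : α → Diagram) (hD : ∀ a, wf 2 (D a) 2) (P : List (Item α)) :
    ∀ (n m : ℕ), wfP n P m → wf n (P.flatMap (Item.diagram fun k a => sh k (D a))) m := by
  induction P with
  | nil => intro n m h; exact h
  | cons it P ih =>
    intro n m h
    rw [List.flatMap_cons]
    rcases it with k | k | ⟨k, a⟩
    · simp only [wfP] at h
      exact ⟨h.1, ih _ _ h.2⟩
    · simp only [wfP] at h
      exact ⟨h.1, ih _ _ h.2⟩
    · simp only [wfP] at h
      refine wf_append ?_ (ih _ _ h.2)
      simp only [Item.diagram]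
      have h1 := h96_wf_right (wf_sh (hD a) k) (n - 2 - k)
      rwa [show 2 + k + (n - 2 - k) = n by omega] at h1

private lemma state_gen {α : Type} {N : ℕ} (hN : 2 ≤ N) (D : α → Diagram)
    (hD : ∀ a, wf 2 (D a) 2) (w : α → ℕ → ℂ) (hw : ∀ a, Coef N (D a) (w a)) (P : List (Item α)) :
    ∀ (n m : ℕ) (_ : wfP n P m) (f : List ℕ → ℂ) (_ : Sup N n f) (d : List ℕ)
      (_ : d.length = m + 1),
    DD N (RT N (P.flatMap (Item.diagram fun k a => sh k (D a))) f) d =
      cst N ^ (exc P) * TrP (N - 1) P ((labels P).map fun a => kerW N (w a)) (DD N f) d := by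
  have hc := cst_ne hN
  induction P with
  | nil =>
    intro n m h f hf d hd
    simp [exc, TrP, RT]
  | cons it P ih =>
    intro n m h f hf d hd
    rw [List.flatMap_cons, RT_append]
    rcases it with k | k | ⟨k, a⟩
    · simp only [wfP] at h
      have e1 : RT N (Item.diagram (fun k a => sh k (D a)) (Item.cup k : Item α)) f =
        slice N .cup k f := rfl
      rw [e1, ih _ _ h.2 _ (hf.cup k) d hd]
      simp only [TrP, labels, exc]
      rw [TrP_congr (N - 1) P (n + 2) m h.2 _ _ (fun u => cst N * lft (cupT (N - 1)) k (DD N f) u)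
        (fun u hu => cup_rule hN h.1 hf (by omega)) d hd, TrP_mul, zpow_add₀ hc, zpow_one]
      ring
    · simp only [wfP] at h
      have e1 : RT N (Item.diagram (fun k a => sh k (D a)) (Item.cap k : Item α)) f =
        slice N .cap k f := rfl
      have hf' : Sup N (n - 2 + 2) f := by rwa [show n - 2 + 2 = n by omega]
      rw [e1, ih _ _ h.2 _ (hf'.cap k) d hd]
      simp only [TrP, labels, exc]
      rw [TrP_congr (N - 1) P (n - 2) m h.2 _ _
        (fun u => (cst N)⁻¹ * lft (capT (N - 1)) k (DD N f) u)
        (fun u hu => cap_rule hN (by omega) hf' (by omega)) d hd, TrP_mul, zpow_add₀ hc,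
        zpow_neg_one]
      ring
    · simp only [wfP] at h
      have e1 : RT N (Item.diagram (fun k a => sh k (D a)) (Item.box k a)) f =
        fun u => ∑ m ∈ range N, w a m * UK N k m f u := Coef.slice hN (hD a) (hw a) h.1 hf
      have hs : Sup N n (RT N (Item.diagram (fun k a => sh k (D a)) (Item.box k a)) f) := by
        have h1 := h96_wf_right (wf_sh (hD a) k) (n - 2 - k)
        rw [show 2 + k + (n - 2 - k) = n by omega] at h1
        exact RT_Sup h1 hf
      rw [ih _ _ h.2 _ hs d hd]
      simp only [TrP, labels, exc, List.map_cons]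
      rw [TrP_congr (N - 1) P n m h.2 _ _ (lft (boxT (N - 1) (kerW N (w a))) k (DD N f))
        (fun u hu => ?_) d hd]
      rw [e1, DD_sum, ← lft_sum hN]
      refine sum_congr rfl fun j hj => ?_
      rw [box_rule hN (mem_range.1 hj) h.1 hf hu]

theorem state_sum {α : Type} {N : ℕ} (hN : 2 ≤ N) (D : α → Diagram) (hD : ∀ a, wf 2 (D a) 2)
    (w : α → ℕ → ℂ) (hw : ∀ a, Coef N (D a) (w a)) (P : List (Item α)) (hP : wfP 1 P 1) :
    RT N (P.flatMap (Item.diagram fun k a => sh k (D a))) (ket [0]) [0] =
      TrP (N - 1) P ((labels P).map fun a => kerW N (w a)) del0 [0, 0] ∧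
    Sup N 1 (RT N (P.flatMap (Item.diagram fun k a => sh k (D a))) (ket [0])) := by
  have hk : Sup N 1 (ket [0]) := by
    have h1 := Sup_ket (N := N) (w := [0]) (by simp; omega)
    simpa using h1
  refine ⟨?_, RT_Sup (wf_link D hD P 1 1 hP) hk⟩
  have h1 := state_gen hN D hD w hw P 1 1 hP (ket [0]) hk [0, 0] rfl
  rw [DD_one] at h1
  have h2 := exc_wf P 1 1 hP
  have h3 : exc P = 0 := by omega
  rw [h1, h3, zpow_zero, one_mul]
  exact TrP_congr (N - 1) P 1 1 hP _ _ _ (fun u hu => DD_ket hN hu) [0, 0] rfl

end Pool.Agent.Helper9.FA
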